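import Pool.Agent.MP_8be872_ag.H63.ApiA

/-! The normal form that cancels the pairs `n_j T_j`. -/

namespace Pool.Agent.MP_8be872_ag.H35

open Finset H38 H56 MvPolynomial H63

variable {E O J : Type} [Fintype E] [Fintype O] [Fintype J] [DecidableEq E] [DecidableEq O]
  [DecidableEq J]

/-- The coordinates `n j`, `j ∈ A`, are distinct and are not variables `T`. -/
structure NOK (A : Finset J) (n : J → E ⊕ J) : Prop where
  inj : Set.InjOn n A
  left : ∀ j ∈ A, ∀ i, n j ≠ .inr i

/-- The exponent of `n_j T_j`. -/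
noncomputable def pr (n : J → E ⊕ J) (j : J) : (E ⊕ J) →₀ ℕ :=
  Finsupp.single (n j) 1 + Finsupp.single (.inr j) 1

/-- Cancel all pairs `n_j T_j`, `j ∈ B`. -/
noncomputable def red (B : Finset J) (n : J → E ⊕ J) (m : (E ⊕ J) →₀ ℕ) : (E ⊕ J) →₀ ℕ :=
  m - ∑ j ∈ B, min (m (n j)) (m (.inr j)) • pr n j

/-- The charts of `A` that occur in `S`. -/
def act (A : Finset J) (S : Finset (O ⊕ J)) : Finset J := A.filter fun j => .inr j ∈ S

/-- The normal form on polynomials. -/
noncomputable def nfP (B : Finset J) (n : J → E ⊕ J) : Module.End ℂ (MvPolynomial (E ⊕ J) ℂ) :=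
  (basisMonomials (E ⊕ J) ℂ).constr ℂ fun m => monomial (red B n m) 1

/-- The normal form `ν`. -/
noncomputable def nf (A : Finset J) (n : J → E ⊕ J) : Op E O J :=
  LinearMap.pi fun S => nfP (act A S) n ∘ₗ LinearMap.proj S

/-- The relations `(n_j T_j - 1) ε_j`, `j ∈ A`. -/
noncomputable def relA (A : Finset J) (n : J → E ⊕ J) : Submodule ℂ (Sp (E ⊕ J) (O ⊕ J)) :=
  Submodule.pi Set.univ fun S =>
    (Ideal.span {y | ∃ j ∈ act A S, y = X (n j) * X (.inr j) - 1}).restrictScalars ℂ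

/-- Normal monomials. -/
def normal (A : Finset J) (n : J → E ⊕ J) (μ : Gn E O J → ℕ) : Prop :=
  ∀ j ∈ A, μ (ev j) ≠ 0 → μ (.inl (n j)) = 0 ∨ μ (tv j) = 0

variable {A B B' : Finset J} {n : J → E ⊕ J} {P : (Gn E O J → ℕ) → Prop}
  {x : Sp (E ⊕ J) (O ⊕ J)}

theorem NOK.mono (h : NOK A n) (hB : B ⊆ A) : NOK B n :=
  ⟨h.inj.mono (coe_subset.2 hB), fun j hj => h.left j (hB hj)⟩

theorem mem_act {S : Finset (O ⊕ J)} {j : J} : j ∈ act A S ↔ j ∈ A ∧ .inr j ∈ S := mem_filter

theorem act_subset (S : Finset (O ⊕ J)) : act A S ⊆ A := filter_subset _ _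

theorem ex_ev (S : Finset (O ⊕ J)) (m : (E ⊕ J) →₀ ℕ) (j : J) :
    ex S m (ev j : Gn E O J) ≠ 0 ↔ .inr j ∈ S := by
  simp [ex]

theorem pr_n (h : NOK B n) {i j : J} (hi : i ∈ B) (hj : j ∈ B) :
    pr n j (n i) = if j = i then 1 else 0 := by
  have h1 := h.left i hi j
  by_cases h2 : j = i
  · subst h2
    simp [pr, h1]
  · have h3 : n i ≠ n j := fun e => h2 (h.inj hj hi e.symm)
    simp [pr, h1, h2, h3]

theorem pr_T (h : NOK B n) (i : J) {j : J} (hj : j ∈ B) :
    pr n j (.inr i) = if j = i then 1 else 0 := by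
  have h1 := (h.left j hj i).symm
  simp [pr, h1, Finsupp.single_apply, eq_comm]

theorem sum_pr_n (h : NOK B n) (k : J → ℕ) {i : J} (hi : i ∈ B) :
    (∑ j ∈ B, k j • pr n j) (n i) = k i := by
  rw [Finsupp.finsetSum_apply, sum_congr rfl fun j hj => by
    rw [Finsupp.smul_apply, pr_n h hi hj, smul_eq_mul, mul_ite, mul_one, mul_zero],
    sum_ite_eq', if_pos hi]

theorem sum_pr_T (h : NOK B n) (k : J → ℕ) (i : J) :
    (∑ j ∈ B, k j • pr n j) (.inr i) = if i ∈ B then k i else 0 := by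
  rw [Finsupp.finsetSum_apply, sum_congr rfl fun j hj => by
    rw [Finsupp.smul_apply, pr_T h i hj, smul_eq_mul, mul_ite, mul_one, mul_zero],
    sum_ite_eq']

theorem red_add (h : NOK B n) (m : (E ⊕ J) →₀ ℕ) :
    red B n m + ∑ j ∈ B, min (m (n j)) (m (.inr j)) • pr n j = m := by
  refine tsub_add_cancel_of_le fun e => ?_
  by_cases h1 : ∃ i ∈ B, e = n i
  · obtain ⟨i, hi, rfl⟩ := h1
    rw [sum_pr_n h _ hi]
    exact min_le_left _ _
  · rcases e with e | i
    · rw [Finsupp.finsetSum_apply, sum_eq_zero]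
      · exact Nat.zero_le _
      · intro j hj
        have h2 : (.inl e : E ⊕ J) ≠ n j := fun e => h1 ⟨j, hj, e⟩
        simp [pr, h2]
    · rw [sum_pr_T h]
      split_ifs
      · exact min_le_right _ _
      · exact Nat.zero_le _

theorem red_add_pr (h : NOK B n) (m : (E ⊕ J) →₀ ℕ) {j : J} (hj : j ∈ B) :
    red B n (m + pr n j) = red B n m := by
  have h1 : ∑ i ∈ B, min ((m + pr n j) (n i)) ((m + pr n j) (.inr i)) • pr n i =
      ∑ i ∈ B, min (m (n i)) (m (.inr i)) • pr n i + pr n j := by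
    rw [sum_congr rfl fun i hi => by
      rw [Finsupp.add_apply, Finsupp.add_apply, pr_n h hi hj, pr_T h i hj, min_add_add_right,
        add_smul, ite_smul, one_smul, zero_smul], sum_add_distrib, sum_ite_eq, if_pos hj]
  rw [red, h1, add_tsub_add_eq_tsub_right, red]

theorem red_normal (h : NOK B n) (m : (E ⊕ J) →₀ ℕ) {j : J} (hj : j ∈ B) :
    red B n m (n j) = 0 ∨ red B n m (.inr j) = 0 := by
  simp only [red, Finsupp.tsub_apply, sum_pr_n h _ hj, sum_pr_T h, if_pos hj]
  omega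

theorem red_eq_self {m : (E ⊕ J) →₀ ℕ} (hm : ∀ j ∈ B, m (n j) = 0 ∨ m (.inr j) = 0) :
    red B n m = m := by
  rw [red, sum_eq_zero, tsub_zero]
  intro j hj
  rcases hm j hj with h | h <;> simp [h]

theorem red_congr {m : (E ⊕ J) →₀ ℕ} (hB : B ⊆ B') (hm : ∀ j ∈ B', j ∉ B → m (.inr j) = 0) :
    red B' n m = red B n m := by
  rw [red, red, sum_subset hB]
  intro j hj hj'
  simp [hm j hj hj']

theorem red_ind (h : NOK B n) {Q : ((E ⊕ J) →₀ ℕ) → Prop}
    (hQ : ∀ j ∈ B, ∀ m, Q (m + pr n j) → Q m) {m : (E ⊕ J) →₀ ℕ} (hm : Q m) : Q (red B n m) := by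
  have key : ∀ (k : J → ℕ) (s : Finset J), s ⊆ B → ∀ m, Q (m + ∑ j ∈ s, k j • pr n j) → Q m := by
    intro k s
    induction s using Finset.induction_on with
    | empty => intro _ m hm; simpa using hm
    | insert a s ha ih =>
      intro hs m hm
      rw [sum_insert ha, ← add_assoc] at hm
      have h1 := ih ((subset_insert _ _).trans hs) _ hm
      generalize k a = b at h1
      induction b with
      | zero => simpa using h1
      | succ b ih' =>
        rw [succ_nsmul, ← add_assoc] at h1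
        exact ih' (hQ a (hs (mem_insert_self _ _)) _ h1)
  exact key _ B subset_rfl _ ((red_add h m).symm ▸ hm)

theorem nfP_monomial (m : (E ⊕ J) →₀ ℕ) (a : ℂ) :
    nfP B n (monomial m a) = monomial (red B n m) a := by
  have e : monomial m a = a • basisMonomials (E ⊕ J) ℂ m := by simp [smul_monomial]
  rw [e, map_smul, nfP, Module.Basis.constr_basis, smul_monomial, smul_eq_mul, mul_one]

theorem monomial_pr (m : (E ⊕ J) →₀ ℕ) (a : ℂ) (j : J) :
    monomial m a * (X (n j) * X (.inr j) - 1) = monomial (m + pr n j) a - monomial m a := by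
  rw [mul_sub, mul_one, X, X, monomial_mul, monomial_mul, mul_one, mul_one, pr]

theorem nf_apply (x : Sp (E ⊕ J) (O ⊕ J)) (S : Finset (O ⊕ J)) :
    nf A n x S = nfP (act A S) n (x S) := rfl

theorem nf_bas (S : Finset (O ⊕ J)) (m : (E ⊕ J) →₀ ℕ) :
    nf A n (bas S m) = bas S (red (act A S) n m) := by
  funext S'
  by_cases h : S' = S
  · subst h
    simp [nf_apply, bas, nfP_monomial]
  · simp [nf_apply, bas, h]

theorem mem_relA : x ∈ relA A n ↔
    ∀ S, x S ∈ Ideal.span {y | ∃ j ∈ act A S, y = X (n j) * X (.inr j) - 1} :=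
  ⟨fun h S => h S trivial, fun h S _ => h S⟩

theorem relA_le_rel {f : J → MvPolynomial (E ⊕ J) ℂ} (hf : ∀ j ∈ A, f j = X (n j)) :
    (relA A n : Submodule ℂ (Sp (E ⊕ J) (O ⊕ J))) ≤ rel f := fun _ hx S _ =>
  Ideal.span_mono (by
    rintro _ ⟨j, hj, rfl⟩
    exact ⟨j, (mem_act.1 hj).2, by rw [hf j (mem_act.1 hj).1]⟩) (mem_relA.1 hx S)

/-- The normal form kills the relations. -/
theorem nf_relA (h : NOK A n) (hx : x ∈ relA A n) : nf A n x = 0 := by
  funext S
  have key : ∀ y ∈ Ideal.span {y | ∃ j ∈ act A S, y = X (n j) * X (.inr j) - 1},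
      ∀ a : MvPolynomial (E ⊕ J) ℂ, nfP (act A S) n (a * y) = 0 := by
    intro y hy
    induction hy using Submodule.span_induction with
    | mem y hy =>
      obtain ⟨j, hj, rfl⟩ := hy
      intro a
      induction a using MvPolynomial.induction_on' with
      | add p q hp hq => rw [add_mul, map_add, hp, hq, add_zero]
      | monomial u a =>
        rw [monomial_pr, map_sub, nfP_monomial, nfP_monomial,
          red_add_pr (h.mono (act_subset S)) u hj, sub_self]
    | zero => intro a; rw [mul_zero, map_zero]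
    | add y z _ _ hy hz => intro a; rw [mul_add, map_add, hy, hz, add_zero]
    | smul b y _ hy => intro a; rw [smul_eq_mul, ← mul_assoc, hy]
  have := key _ (mem_relA.1 hx S) 1
  rwa [one_mul] at this

/-- An element is congruent to its normal form. -/
theorem sub_nf_mem (h : NOK A n) (x : Sp (E ⊕ J) (O ⊕ J)) : x - nf A n x ∈ relA A n := by
  refine mem_relA.2 fun S => ?_
  rw [Pi.sub_apply, nf_apply]
  induction x S using MvPolynomial.induction_on' with
  | add p q hp hq =>
    rw [map_add, add_sub_add_comm]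
    exact add_mem hp hq
  | monomial u a =>
    rw [nfP_monomial]
    refine red_ind (h.mono (act_subset S)) (Q := fun m => monomial u a - monomial m a ∈ _)
      (fun j hj m hm => ?_) (by rw [sub_self]; exact zero_mem _)
    rw [← sub_add_sub_cancel _ (monomial (m + pr n j) a), ← monomial_pr]
    exact add_mem hm (Ideal.mul_mem_left _ _ (Ideal.subset_span ⟨j, hj, rfl⟩))

theorem mem_relA_iff (h : NOK A n) : x ∈ relA A n ↔ nf A n x = 0 :=
  ⟨nf_relA h, fun e => by simpa [e] using sub_nf_mem h x⟩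

theorem ex_add_pr (S : Finset (O ⊕ J)) (m : (E ⊕ J) →₀ ℕ) (j : J) :
    ex S (m + pr n j) = ex S m + Pi.single (.inl (n j)) 1 + Pi.single (tv j) 1 := by
  funext g
  rcases g with g | g <;> simp [ex, pr, Pi.single_apply, Finsupp.single_apply, eq_comm, add_assoc]

/-- The normal form preserves conditions that are stable under cancelling pairs. -/
theorem nf_mem (h : NOK A n) (hP : ∀ j ∈ A, ∀ μ : Gn E O J → ℕ, μ (ev j) ≠ 0 →
      P (μ + Pi.single (.inl (n j)) 1 + Pi.single (tv j) 1) → P μ) (hx : x ∈ mono P) :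
    nf A n x ∈ mono P := by
  refine map_mem_of_bas (fun S m hm => ?_) hx
  rw [nf_bas]
  refine bas_mem (red_ind (h.mono (act_subset S)) (Q := fun m => P (ex S m))
    (fun j hj m hm => hP j (mem_act.1 hj).1 _ ((ex_ev S m j).2 (mem_act.1 hj).2) ?_) hm)
  rwa [← ex_add_pr]

theorem nf_normal (h : NOK A n) (x : Sp (E ⊕ J) (O ⊕ J)) : nf A n x ∈ mono (normal A n) := by
  refine map_mem_of_bas (P := fun _ => True) (fun S m _ => ?_) (by rw [mono_true]; trivial)
  rw [nf_bas]
  exact bas_mem fun j hj hS =>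
    red_normal (h.mono (act_subset S)) m (mem_act.2 ⟨hj, (ex_ev S _ j).1 hS⟩)

theorem nf_eq_self (hx : x ∈ mono (normal A n)) : nf A n x = x := by
  refine sub_eq_zero.1 (map_mem_of_bas (L := nf A n - 1) (C := ⊥) (fun S m hm => ?_) hx)
  rw [Submodule.mem_bot, LinearMap.sub_apply, nf_bas, red_eq_self, Module.End.one_apply, sub_self]
  exact fun j hj => hm j (mem_act.1 hj).1 ((ex_ev S m j).2 (mem_act.1 hj).2)

theorem nf_nf (h : NOK A n) (x : Sp (E ⊕ J) (O ⊕ J)) : nf A n (nf A n x) = nf A n x :=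
  nf_eq_self (nf_normal h x)

/-- Projections compatible with the relations commute with the normal form. -/
theorem proj_nf (h : NOK A n) (hP : ∀ j ∈ A, ∀ μ : Gn E O J → ℕ, μ (ev j) ≠ 0 →
      (P (μ + Pi.single (.inl (n j)) 1 + Pi.single (tv j) 1) ↔ P μ)) (x : Sp (E ⊕ J) (O ⊕ J)) :
    proj P (nf A n x) = nf A n (proj P x) :=
  proj_comm (A := fun _ => True)
    (fun _ hy => nf_mem h (fun j hj μ hμ => (hP j hj μ hμ).1) (mono_le (fun _ a => a.2) hy))
    (fun _ hy => nf_mem h (fun j hj μ hμ a b => a ((hP j hj μ hμ).2 b))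
      (mono_le (fun _ a => a.2) hy)) (by rw [mono_true]; trivial)

/-- The normal form commutes with `ε_i` on elements without spurious `T_i`. -/
theorem nf_ev (i : J) (hx : x ∈ mono fun μ => μ (tv i) ≠ 0 → μ (ev i) ≠ 0) :
    nf A n (gn (ev i) x) = gn (ev i) (nf A n x) := by
  funext S
  rw [nf_apply, gn, H29.wedge_apply, H29.wedge_apply]
  split_ifs with h1
  · rw [map_smul, nf_apply]
    congr 1
    rw [(x (S.erase (.inr i))).as_sum, map_sum, map_sum]
    refine sum_congr rfl fun m hm => ?_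
    rw [nfP_monomial, nfP_monomial, red_congr]
    · exact fun j hj => mem_act.2 ⟨(mem_act.1 hj).1, mem_of_mem_erase (mem_act.1 hj).2⟩
    · intro j hj hj'
      have h2 : j = i := by
        by_contra h3
        exact hj' (mem_act.2 ⟨(mem_act.1 hj).1, mem_erase.2 ⟨by simpa using h3, (mem_act.1 hj).2⟩⟩)
      subst h2
      by_contra h3
      exact notMem_erase _ _ ((ex_ev _ m j).1 (mem_mono.1 hx _ m (mem_support_iff.1 hm) h3))
  · exact map_zero _

theorem mul_relA (p : MvPolynomial (E ⊕ J) ℂ) (hx : x ∈ relA A n) : mul p x ∈ relA A n :=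
  mem_relA.2 fun S => Ideal.mul_mem_left _ _ (mem_relA.1 hx S)

theorem dr_relA (h : NOK A n) {i : J} (hi : i ∉ A) (hx : x ∈ relA A n) :
    dr (tv i) x ∈ relA A n := by
  refine mem_relA.2 fun S => ?_
  have e : dr (tv i : Gn E O J) x S = pderiv (R := ℂ) (Sum.inr i : E ⊕ J) (x S) := rfl
  rw [e]
  clear e
  have hy := mem_relA.1 hx S
  generalize x S = y at hy
  induction hy using Submodule.span_induction with
  | mem y hy =>
    obtain ⟨j, hj, rfl⟩ := hy
    have h1 : n j ≠ .inr i := h.left j (mem_act.1 hj).1 i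
    have h2 : (.inr j : E ⊕ J) ≠ .inr i := fun e => hi (Sum.inr_injective e ▸ (mem_act.1 hj).1)
    rw [map_sub, pderiv_mul, pderiv_X_of_ne h1, pderiv_X_of_ne h2, pderiv_one]
    simp
  | zero => rw [map_zero]; exact zero_mem _
  | add y z _ _ hy hz => rw [map_add]; exact add_mem hy hz
  | smul b y h1 hy =>
    rw [smul_eq_mul, pderiv_mul]
    exact add_mem (Ideal.mul_mem_left _ _ h1) (Ideal.mul_mem_left _ _ hy)

/-- Splitting off the relation of the chart `j₀`. -/
theorem rel_split {f : J → MvPolynomial (E ⊕ J) ℂ} (hf : ∀ j ∈ A, f j = X (n j)) (j₀ : J)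
    (hx : x ∈ rel f) (hA : x ∈ mono fun μ => ∀ j, μ (ev j) ≠ 0 → j = j₀ ∨ j ∈ A) :
    ∃ z : Sp (E ⊕ J) (O ⊕ J), (∀ S, x S = 0 → z S = 0) ∧
      x - mul (f j₀ * X (.inr j₀) - 1) z ∈ relA A n := by
  have key : ∀ S, ∃ z : MvPolynomial (E ⊕ J) ℂ, (x S = 0 → z = 0) ∧
      x S - (f j₀ * X (.inr j₀) - 1) * z ∈
        Ideal.span {y | ∃ j ∈ act A S, y = X (n j) * X (.inr j) - 1} := by
    intro S
    by_cases h0 : x S = 0
    · exact ⟨0, fun _ => rfl, by simp [h0]⟩
    obtain ⟨m, hm⟩ := ne_zero_iff.1 h0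
    have h1 : x S ∈ Ideal.span {f j₀ * X (.inr j₀) - 1} ⊔
        Ideal.span {y | ∃ j ∈ act A S, y = X (n j) * X (.inr j) - 1} := by
      refine Ideal.span_le.2 ?_ (hx S trivial)
      rintro _ ⟨j, hj, rfl⟩
      rcases hA S trivial (mem_support_iff.2 hm) j (by simp [hj]) with rfl | h2
      · exact Ideal.mem_sup_left (Ideal.subset_span rfl)
      · exact Ideal.mem_sup_right (Ideal.subset_span ⟨j, mem_act.2 ⟨h2, hj⟩, by rw [hf j h2]⟩)
    obtain ⟨a, ha, b, hb, e⟩ := Submodule.mem_sup.1 h1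
    obtain ⟨z, rfl⟩ := Ideal.mem_span_singleton'.1 ha
    exact ⟨z, fun h => absurd h h0, by rwa [← e, mul_comm z, add_sub_cancel_left]⟩
  choose z hz using key
  exact ⟨z, fun S => (hz S).1, mem_relA.2 fun S => (hz S).2⟩

end Pool.Agent.MP_8be872_ag.H35
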