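import Pool.Agent.MP_8be872_ag.H35.Nf
import Pool.Agent.MP_8be872_ag.H63.LocA
import Pool.Agent.MP_8be872_ag.H63.SpecA

/-! The Čech complex of coordinates is exact below the top polar part. -/

namespace Pool.Agent.MP_8be872_ag.H35

open Finset H38 H56 MvPolynomial H63

variable {E O J Γ : Type} [Fintype E] [Fintype O] [Fintype J] [DecidableEq E] [DecidableEq O]
  [DecidableEq J] [AddCommGroup Γ] {Al : Gn E O J → Prop} {c : Gn E O J → Γ}
  {δ : Gn E O J → Op E O J} {ω : Op E O J} {f : J → MvPolynomial (E ⊕ J) ℂ}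
  {A : Finset J} {j₀ : J} {n : J → E ⊕ J} {P P' : (Gn E O J → ℕ) → Prop}
  {x : Sp (E ⊕ J) (O ⊕ J)}

/-- The Čech differential. -/
noncomputable def dC (A : Finset J) : Op E O J := ∑ j ∈ A, gn (ev j)

/-- Čech monomials without a pole along some chart of `A`. -/
def WW (Al : Gn E O J → Prop) (j₀ : J) (A : Finset J) (μ : Gn E O J → ℕ) : Prop :=
  cech Al {j₀} A μ ∧ ∃ j ∈ A, μ (tv j) = 0

theorem dC_dr {j : J} (hj : j ∈ A) (x : Sp (E ⊕ J) (O ⊕ J)) :
    dC A (dr (ev j) x) + dr (ev j) (dC A x) = x := by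
  have h : (dC A * dr (ev j) + dr (ev j) * dC A : Op E O J) = 1 := by
    rw [dC, sum_mul, mul_sum, ← sum_add_distrib, sum_congr rfl (g := fun i =>
      if j = i then 1 else 0) fun i _ => by
        have e : ∀ L : Op E O J, (-1 : ℂ) • L = -L := fun L => neg_one_smul ℂ L
        rw [dr_mul_gn]
        simp [sg, e], sum_ite_eq, if_pos hj]
  exact LinearMap.congr_fun h x

theorem dC_mem (hx : x ∈ mono P) (h : ∀ j ∈ A, ∀ μ, P μ → P' (μ + Pi.single (ev j) 1)) :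
    dC A x ∈ mono P' := by
  rw [dC, LinearMap.sum_apply]
  exact Submodule.sum_mem _ fun j hj => gn_mem _ hx (h j hj)

theorem dC_proj (h : ∀ j ∈ A, ∀ μ, P' (μ + Pi.single (ev j) 1) ↔ P μ) (x : Sp (E ⊕ J) (O ⊕ J)) :
    proj P' (dC A x) = dC A (proj P x) :=
  proj_comm (A := fun _ => True) (fun _ hy => dC_mem hy fun j hj μ a => (h j hj μ).2 a.2)
    (fun _ hy => dC_mem hy fun j hj μ a b => a.2 ((h j hj μ).1 b)) (by rw [mono_true]; trivial)

theorem dC_comm {L : Op E O J} (h : ∀ j, gn (ev j) * L = L * gn (ev j)) : dC A * L = L * dC A := by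
  rw [dC, sum_mul, mul_sum]
  exact sum_congr rfl fun j _ => h j

theorem dC_mul (p : MvPolynomial (E ⊕ J) ℂ) : (dC A : Op E O J) * mul p = mul p * dC A :=
  dC_comm fun _ => (mul_comm_words (P := fun _ => True) p (gn_mem_words trivial)).symm

theorem WW.ev₀ {μ : Gn E O J → ℕ} (h : WW Al j₀ A μ) : μ (ev j₀) ≠ 0 :=
  h.1.2.1 j₀ (mem_singleton_self _)

theorem WW.of_le {μ μ' : Gn E O J → ℕ} (h : WW Al j₀ A μ') (h1 : ∀ g, μ g ≠ 0 → μ' g ≠ 0)
    (h2 : ∀ j, μ' (ev j) ≠ 0 → μ (ev j) ≠ 0 ∨ j ≠ j₀ ∧ μ (tv j) = 0) : WW Al j₀ A μ := by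
  have h0 : μ (ev j₀) ≠ 0 := (h2 j₀ h.ev₀).resolve_right fun a => a.1 rfl
  obtain ⟨⟨a, -, -⟩, j, hj, b⟩ := h
  refine ⟨⟨fun g hg => ?_, fun i hi => by rwa [mem_singleton.1 hi], j₀, h0⟩, j, hj,
    of_not_not fun e => h1 _ e b⟩
  rcases a g (h1 g hg) with a | ⟨i, rfl, a⟩ | a
  · exact .inl a
  · exact .inr (.inl ⟨i, rfl, (h2 i a).resolve_right fun e => hg e.2⟩)
  · exact .inr (.inr a)

theorem WW.add (hT : ∀ j, ¬ Al (tv j)) (hj₀ : j₀ ∉ A) {μ ν : Gn E O J → ℕ} (h : WW Al j₀ A μ)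
    (hν : ∀ g, ν g ≠ 0 → Al g ∨ g = tv j₀ ∨ ∃ j ∈ A, g = ev j) : WW Al j₀ A (μ + ν) := by
  have h0 := h.ev₀
  have h1 : ∀ g, μ g ≠ 0 → (μ + ν) g ≠ 0 := fun g hg => by simp [hg]
  obtain ⟨⟨a, -, -⟩, j, hj, b⟩ := h
  refine ⟨⟨fun g hg => ?_, fun i hi => by rw [mem_singleton.1 hi]; exact h1 _ h0, j₀, h1 _ h0⟩,
    j, hj, ?_⟩
  · by_cases h2 : μ g = 0
    · rcases hν g (by simpa [h2] using hg) with a | rfl | ⟨i, hi, rfl⟩
      · exact .inl a
      · exact .inr (.inl ⟨j₀, rfl, h1 _ h0⟩)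
      · exact .inr (.inr ⟨i, mem_union_right _ hi, rfl⟩)
    · rcases a g h2 with a | ⟨i, rfl, a⟩ | a
      · exact .inl a
      · exact .inr (.inl ⟨i, rfl, h1 _ a⟩)
      · exact .inr (.inr a)
  · rw [Pi.add_apply, b, zero_add]
    by_contra e
    rcases hν _ e with a | a | ⟨i, _, a⟩
    · exact hT _ a
    · exact hj₀ (Sum.inr_injective (Sum.inl_injective a) ▸ hj)
    · cases a

theorem WW.tv (hT : ∀ j, ¬ Al (tv j)) {μ : Gn E O J → ℕ} (h : WW Al j₀ A μ) (i : J)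
    (hi : μ (tv i) ≠ 0) : μ (ev i) ≠ 0 := by
  rcases h.1.1 _ hi with a | ⟨j, e, a⟩ | ⟨j, _, e⟩
  · exact absurd a (hT i)
  · rwa [Sum.inr_injective (Sum.inl_injective e)]
  · cases e

theorem WW.pat (hE : ∀ j, ¬ Al (ev j)) {μ : Gn E O J → ℕ} (h : WW Al j₀ A μ) (i : J)
    (hi : μ (ev i) ≠ 0) : i = j₀ ∨ i ∈ A := by
  rcases h.1.1 _ hi with a | ⟨j, e, a⟩ | ⟨j, hj, e⟩
  · exact absurd a (hE i)
  · cases e
  · rw [Sum.inr_injective (Sum.inr_injective e)]
    simpa using hj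

theorem single_ne {g g' : Gn E O J} (h : (Pi.single g 1 : Gn E O J → ℕ) g' ≠ 0) : g' = g :=
  of_not_not fun e => h (Pi.single_eq_of_ne e 1)

/-- Exactness before the relations. -/
theorem exact₀ (hj₀ : j₀ ∉ A) (hx : x ∈ mono (WW Al j₀ A)) (hd : dC A x = 0) :
    ∃ y ∈ mono (WW Al j₀ A), dC A y = x := by
  classical
  let φ : (J → ℕ) → J := fun τ => if h : ∃ j ∈ A, τ j = 0 then h.choose else j₀
  have hφ : ∀ τ, (∃ j ∈ A, τ j = 0) → φ τ ∈ A ∧ τ (φ τ) = 0 := fun τ h => by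
    simp only [φ, dif_pos h]
    exact h.choose_spec
  obtain ⟨s, hs, -⟩ := exists_sum_proj (fun μ : Gn E O J → ℕ => φ fun i => μ (tv i)) x
  change x ∈ (mono (WW Al j₀ A)).map (dC A)
  rw [hs]
  refine Submodule.sum_mem _ fun j _ => ?_
  set u := proj (fun μ : Gn E O J → ℕ => (φ fun i => μ (tv i)) = j) x with hu
  have h1 : u ∈ mono fun μ => WW Al j₀ A μ ∧ j ∈ A ∧ μ (tv j) = 0 := by
    have : u ∈ mono fun μ => WW Al j₀ A μ ∧ (φ fun i => μ (tv i)) = j := by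
      rw [mono_and]
      exact ⟨proj_mem_of hx, proj_mem x⟩
    exact mono_le (fun μ a => ⟨a.1, a.2 ▸ hφ _ a.1.2⟩) this
  by_cases hj : j ∈ A
  · have h2 : dC A u = 0 := by
      rw [hu, ← dC_proj (P' := fun μ => (φ fun i => μ (tv i)) = j) fun i _ μ => by simp, hd,
        map_zero]
    refine ⟨dr (ev j) u, dr_mem _ h1 fun μ a => a.1.of_le (fun g hg => by simp [hg]) fun i hi => ?_,
      by simpa [h2] using dC_dr hj u⟩
    by_cases e : i = j
    · subst e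
      exact .inr ⟨fun e => hj₀ (e ▸ hj), by simpa using a.2.2⟩
    · exact .inl (by simpa [e] using hi)
  · rw [eq_zero_of_mem_mono h1 h1 fun _ a _ => hj a.2.1]
    exact zero_mem _

/-- Exactness modulo the relations of the charts in `A`. -/
theorem exact₁ (hT : ∀ j, ¬ Al (tv j)) (hj₀ : j₀ ∉ A) (hn : NOK A n) (hx : x ∈ mono (WW Al j₀ A))
    (hd : dC A x ∈ relA A n) : ∃ y ∈ mono (WW Al j₀ A), x - dC A y ∈ relA A n := by
  have h1 : dC A (nf A n x) = 0 := by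
    rw [← nf_relA hn hd, dC, LinearMap.sum_apply, LinearMap.sum_apply, map_sum]
    exact sum_congr rfl fun i _ => (nf_ev i (mono_le (fun _ a => a.tv hT i) hx)).symm
  obtain ⟨y, hy, e⟩ := exact₀ hj₀ (nf_mem hn (fun j _ μ _ a =>
    a.of_le (fun g hg => by simp [hg]) fun i hi => .inl (by simpa using hi)) hx) h1
  exact ⟨y, hy, e ▸ sub_nf_mem hn x⟩

theorem mul_rel (p : MvPolynomial (E ⊕ J) ℂ) (hx : x ∈ rel f) : mul p x ∈ rel f :=
  mem_rel.2 fun S => Ideal.mul_mem_left _ _ (mem_rel.1 hx S)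

theorem nok (h : Good Al c δ ω f) (hinj : Set.InjOn n A) (hf : ∀ j ∈ A, f j = X (n j)) :
    NOK A n := by
  refine ⟨hinj, fun j hj i e => h.alT i ?_⟩
  refine (pol_mem.1 (h.fw j) (Finsupp.single (n j) 1) (by simp [hf j hj])).1 _ ?_
  simp [ex, e]

/-- Exactness of the Čech differential. -/
theorem exact₂ (h : Good Al c δ ω f) (hj₀ : j₀ ∉ A) (hn : NOK A n) (hf : ∀ j ∈ A, f j = X (n j))
    (hx : x ∈ mono (WW Al j₀ A)) (hd : dC A x ∈ rel f) :
    ∃ y ∈ mono (WW Al j₀ A), x - dC A y ∈ rel f := by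
  classical
  have c0 : ∀ u ∈ mono (WW Al j₀ A), dC A u ∈ mono (WW Al j₀ A) := fun u hu =>
    dC_mem hu fun j hj μ a => a.add h.alT hj₀ fun g hg => .inr (.inr ⟨j, hj, single_ne hg⟩)
  have c1 : ∀ u ∈ mono (WW Al j₀ A), mul (f j₀) u ∈ mono (WW Al j₀ A) := fun u hu =>
    words_apply_mem (mul_mem_words_of_pol (h.fw j₀)) hu fun a b ha hb =>
      add_comm a b ▸ hb.add h.alT hj₀ fun g hg => .inl (ha.1 g hg)
  have c2 : ∀ u ∈ mono (WW Al j₀ A), gn (tv j₀) u ∈ mono (WW Al j₀ A) := fun u hu =>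
    gn_mem _ hu fun μ a => a.add h.alT hj₀ fun g hg => .inr (.inl (single_ne hg))
  have c3 : ∀ u ∈ mono (WW Al j₀ A), dr (tv j₀) u ∈ mono (WW Al j₀ A) := fun u hu =>
    dr_mem _ hu fun μ a => a.of_le (fun g hg => by simp [hg]) fun i hi => .inl (by simpa using hi)
  have c4 : ∀ u ∈ mono (WW Al j₀ A), mul (f j₀ * X (.inr j₀) - 1) u ∈ rel f := fun u hu =>
    rel_gen j₀ (mono_le (fun _ a => a.ev₀) hu)
  obtain ⟨z, -, hz⟩ := rel_split hf j₀ hd (mono_le (fun _ a => a.pat h.alE) (c0 x hx))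
  obtain ⟨N, hN⟩ := clear h.tfree j₀ {x, z}
  obtain ⟨ρ, -, r2, r3, -, r5, r6⟩ := hN N le_rfl
  obtain ⟨z', e', hz'⟩ := r2 x (mem_insert_self _ _)
  have h1 : dC A (ρ x) ∈ relA A n := by
    have e := LinearMap.congr_fun (r5 (dC A) (dC_mul _) (dC_comm fun j => by
      rw [dr_mul_gn]
      simp [sg]) (dC_mul _)) x
    have := r6 (relA A n) (fun u hu => mul_relA _ hu) (fun u hu => mul_relA _ hu)
      (fun u hu => dr_relA hn hj₀ hu) _ hz
    rw [map_sub, r3 z (by simp), sub_zero] at this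
    exact (e : dC A (ρ x) = ρ (dC A x)) ▸ this
  obtain ⟨y, hy, h2⟩ := exact₁ h.alT hj₀ hn (r6 _ c1 c2 c3 x hx) h1
  have h3 : mul (f j₀ ^ N) x - dC A y ∈ rel f := by
    have := sub_mem (relA_le_rel hf h2) (e' ▸ c4 z' (hz' _ c1 c2 c3 hx))
    rwa [sub_sub_sub_cancel_left] at this
  have h4 : ∀ k : ℕ, mul (X (.inr j₀) ^ k) y ∈ mono (WW Al j₀ A) := fun k => by
    induction k with
    | zero => rwa [pow_zero, show (mul 1 : Op E O J) = 1 from map_one mulA]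
    | succ k ih => rw [pow_succ', mul_mul]; exact c2 _ ih
  refine ⟨_, h4 N, ?_⟩
  obtain ⟨q, hq⟩ := sub_one_dvd_pow_sub_one (f j₀ * X (.inr j₀)) N
  have h5 := sub_mem (mul_rel (X (.inr j₀) ^ N) h3) (mul_rel q (c4 x hx))
  have e := LinearMap.congr_fun (dC_mul (A := A) (X (.inr j₀) ^ N)) y
  rw [Module.End.mul_apply, Module.End.mul_apply] at e
  rw [e]
  convert h5 using 1
  funext S
  simp only [Pi.sub_apply, mul_apply', map_sub]
  linear_combination (-(x S)) * hq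

section Graded

variable {cd : Gn E O J → ℤ} (h : Good Al c δ ω f)
  (hδ : ∀ g, δ g ∈ words fun μ => ws cd μ = cd g + 1) (hω : ω ∈ words fun μ => ws cd μ = 1)
  (hcd : ∀ j, cd (tv j) = 0 ∧ cd (ev j) = 0 ∧
    (pol (f j) : Sp (E ⊕ J) (O ⊕ J)) ∈ mono fun μ => ws cd μ = 0)
include h hcd

theorem proj_rel' (γ : Γ) (p : Bool) (k : ℤ) (hx : x ∈ rel f) :
    proj (fun μ => (ws c μ = γ ∧ od μ = p) ∧ ws cd μ = k) x ∈ rel f := by
  refine proj_rel (A := univ) (fun j _ m hm μ hμ => ?_) (mem_mono.2 fun _ _ _ _ _ => mem_univ _) hx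
  obtain ⟨-, a, b⟩ := h.cech_add ∅ ∅ j m hm μ hμ
  rw [a, b, ws_add, ws_add, ws_single, (hcd j).1, pol_mem.1 (hcd j).2.2 m hm, add_zero, add_zero]

/-- Homogeneous exactness of the Čech differential. -/
theorem exact₃ (hj₀ : j₀ ∉ A) (hn : NOK A n) (hf : ∀ j ∈ A, f j = X (n j)) {γ : Γ} {p : Bool}
    {k : ℤ} (hx : x ∈ mono fun μ => WW Al j₀ A μ ∧ (ws c μ = γ ∧ od μ = p) ∧ ws cd μ = k)
    (hd : dC A x ∈ rel f) :
    ∃ y ∈ mono fun μ => WW Al j₀ A μ ∧ (ws c μ = γ ∧ od μ = !p) ∧ ws cd μ = k,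
      x - dC A y ∈ rel f := by
  obtain ⟨y, hy, h1⟩ := exact₂ h hj₀ hn hf (mono_le (fun _ a => a.1) hx) hd
  refine ⟨proj (fun μ => (ws c μ = γ ∧ od μ = !p) ∧ ws cd μ = k) y, by
    rw [mono_and]; exact ⟨proj_mem_of hy, proj_mem y⟩, ?_⟩
  have h2 := proj_rel' h hcd γ p k h1
  rwa [map_sub, proj_eq_self (mono_le (fun _ a => a.2) hx), dC_proj fun j _ μ => ?_] at h2
  rw [ws_add, ws_add, ws_single, ws_single, h.wtE, (hcd j).2.1, add_zero, add_zero, od_add,
    od_single]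
  cases p <;> cases od μ <;> simp

include hδ in
theorem dl_mem (g : Gn E O J) : dl δ f g ∈ words fun μ =>
    ws cd μ = cd g + 1 ∧ ∀ j, μ (tv j) ≠ 0 → g = tv j := by
  have h0 : δ g ∈ words fun μ => ws cd μ = cd g + 1 ∧ ∀ j, μ (tv j) ≠ 0 → g = tv j :=
    words_le (fun μ a => ⟨a.1, fun j hj => absurd (a.2.1 _ hj) (h.alT j)⟩)
      (words_and (hδ g) (h.dw g))
  rcases g with (g | j) | g
  · exact h0
  · have h1 : vf δ * mul (f j) - mul (f j) * vf δ ∈ words fun μ => ws cd μ = 1 := by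
      have := vf_br (s := true) (a := false) (P' := fun μ => ws cd μ = 1)
        (P := fun μ => ws cd μ = 0) (m := mul (f j))
        (Pg := fun g μ => ws cd μ = cd g + 1) (fun g => words_le
          (fun μ a => ⟨a.1, by simpa using a.2.2.2⟩) (words_and (hδ g) (h.dw g)))
        (mul_mem_words_of_pol (pol_mem.2 fun m hm => ⟨pol_mem.1 (hcd j).2.2 m hm, by simp [od, ex]⟩))
        fun g μ ν a b => by
          rw [ws_add, ws_single] at a
          rw [ws_add]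
          omega
      simpa [sg] using this
    refine neg_mem (mul_mem_words (mul_mem_words
      (P'' := fun μ => ws cd μ = 0 ∧ ∀ g, μ g ≠ 0 → g = tv j)
      (gn_mem_words (P := fun μ => μ = Pi.single (tv j) 1) rfl)
      (gn_mem_words (P := fun μ => μ = Pi.single (tv j) 1) rfl) ?_)
      (words_and h1 (h.uu_mem j)) fun a b ha hb => ⟨?_, fun i hi => ?_⟩)
    · rintro _ _ rfl rfl
      refine ⟨by rw [ws_add, ws_single, (hcd j).1, add_zero], fun g hg => of_not_not fun e => ?_⟩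
      simp [e] at hg
    · rw [ws_add, ha.1, hb.1, (hcd j).1]
    · have h2 : b (tv i) = 0 := of_not_not fun e => h.alT i (hb.2.1 _ e)
      exact (ha.2 _ (by simpa [h2] using hi)).symm
  · exact h0

include hδ hω in
theorem d1_mem (U : ℤ → Prop)
    (hx : x ∈ mono fun μ => (∃ j ∈ A, μ (tv j) = 0) ∧ U (ws cd μ + 1)) :
    Dloc δ ω f A x - dC A x ∈ mono fun μ => (∃ j ∈ A, μ (tv j) = 0) ∧ U (ws cd μ) := by
  rw [h.Dloc_eq, LinearMap.add_apply, LinearMap.add_apply, dC, add_sub_cancel_right]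
  refine add_mem (vf_mem (dl_mem h hδ hcd) hx ?_)
    (words_apply_mem (words_and hω h.ow) hx ?_)
  · rintro g μ ν ⟨⟨j, hj, a⟩, b⟩ ⟨e, e'⟩
    have a' := Nat.add_eq_zero_iff.1 a
    refine ⟨⟨j, hj, Nat.add_eq_zero_iff.2 ⟨of_not_not fun t => ?_, a'.1⟩⟩, ?_⟩
    · simp [e' j t] at a'
    · rw [ws_add, ws_single] at b
      rw [ws_add, e]
      convert b using 1
      ring
  · rintro ν μ ⟨e, e', -⟩ ⟨⟨j, hj, a⟩, b⟩
    refine ⟨⟨j, hj, Nat.add_eq_zero_iff.2 ⟨of_not_not fun t => h.alT j (e' _ t), a⟩⟩, ?_⟩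
    rwa [ws_add, e, add_comm]

end Graded

theorem exists_lb (φ : (Gn E O J → ℕ) → ℤ) (x : Sp (E ⊕ J) (O ⊕ J)) :
    ∃ k, x ∈ mono fun μ => k ≤ φ μ := by
  obtain ⟨s, hs, -⟩ := exists_sum_proj φ x
  obtain ⟨k, hk⟩ := s.bddBelow
  refine ⟨k, hs ▸ Submodule.sum_mem _ fun t ht => ?_⟩
  exact mono_le (fun μ (a : φ μ = t) => a ▸ hk ht) (proj_mem x)

theorem zz_eq (γ : Γ) (p : Bool) :
    (ZZ Al c {j₀} A γ p ⊓ mono fun μ => ∃ j ∈ A, μ (tv j) = 0) =
      mono fun μ => WW Al j₀ A μ ∧ ws c μ = γ ∧ od μ = p := by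
  rw [ZZ, ← mono_and]
  congr 1
  funext μ
  exact propext ⟨fun a => ⟨⟨a.1.1, a.2⟩, a.1.2⟩, fun a => ⟨⟨a.1.1, a.2⟩, a.1.2⟩⟩

theorem poleA : PoleAStmt := by
  intro E O J Γ _ _ _ _ _ _ _ Al c δ ω f h j₀ A n cd hj₀ hinj hf hδ hω hcd hle γ p
  have hn := nok h hinj hf
  have key : ∀ (t : ℕ), ∀ x ∈ mono fun μ => (WW Al j₀ A μ ∧ ws c μ = γ ∧ od μ = p) ∧
      ∑ g, |cd g| + 1 - t ≤ ws cd μ, Dloc δ ω f A x ∈ rel f →
      ∃ y ∈ mono fun μ => WW Al j₀ A μ ∧ ws c μ = γ ∧ od μ = !p,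
        x - Dloc δ ω f A y ∈ rel f := by
    intro t
    induction t with
    | zero =>
      intro x hx _
      have h1 : x ∈ mono fun _ => False := by
        refine mono_le_odd (fun μ h1 a => ?_) hx
        have h2 : ws cd μ ≤ ∑ g, |cd g| := by
          refine sum_le_sum fun g _ => ?_
          by_cases h3 : μ g = 0
          · simp [h3]
          rcases g with g | g
          · refine le_trans (nsmul_nonpos ?_ _) (abs_nonneg _)
            rcases a.1.1.1.1 _ h3 with b | ⟨j, e, _⟩ | ⟨j, _, e⟩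
            · exact hle _ b rfl
            · rw [e, (hcd j).1]
            · cases e
          · rw [show μ (.inr g) = 1 by have := h1 g; omega, one_smul]
            exact le_abs_self _
        have := a.2
        omega
      rw [mono_false, Submodule.mem_bot] at h1
      exact ⟨0, zero_mem _, by simp [h1]⟩
    | succ t ih =>
      intro x hx hd
      set k : ℤ := ∑ g, |cd g| + 1 - (t + 1 : ℕ) with hk
      have hk' : ∑ g, |cd g| + 1 - (t : ℤ) = k + 1 := by rw [hk]; push_cast; ring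
      rw [hk'] at ih
      set x₀ := proj (fun μ => (ws c μ = γ ∧ od μ = p) ∧ ws cd μ = k) x with hx₀
      have h1 : dC A x₀ ∈ rel f := by
        have a := proj_rel' h hcd γ (!p) k hd
        have b := proj_eq_zero (P := fun μ => (ws c μ = γ ∧ od μ = !p) ∧ ws cd μ = k)
          (mono_le (fun μ a b => by have := a.2; have := b.2; omega)
            (d1_mem h hδ hω hcd (fun s => k + 1 ≤ s)
              (mono_le (fun μ a => ⟨a.1.1.2, by have := a.2; omega⟩) hx)))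
        rw [map_sub, sub_eq_zero] at b
        rwa [b, dC_proj fun j _ μ => ?_] at a
        rw [ws_add, ws_add, ws_single, ws_single, h.wtE, (hcd j).2.1, add_zero, add_zero, od_add,
          od_single]
        cases p <;> cases od μ <;> simp
      obtain ⟨y, hy, h2⟩ := exact₃ h hcd hj₀ hn hf (x := x₀) (by
        rw [mono_and]
        exact ⟨proj_mem_of (mono_le (fun _ a => a.1.1) hx), proj_mem x⟩) h1
      have hy' : y ∈ mono fun μ => WW Al j₀ A μ ∧ ws c μ = γ ∧ od μ = !p :=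
        mono_le (fun _ a => ⟨a.1, a.2.1⟩) hy
      have h3 := d1_mem h hδ hω hcd (fun s => k + 1 ≤ s)
        (mono_le (fun μ a => ⟨a.1.2, by have := a.2.2; omega⟩) hy)
      have h4 : Dloc δ ω f A y - dC A y ∈ ZZ Al c {j₀} A γ p := by
        have a := h.Dloc_ZZ (A := A) subset_union_right ((zz_eq γ (!p)).ge hy').1
        rw [Bool.not_not] at a
        refine sub_mem a (dC_mem hy' fun j hj μ b => ⟨(b.1.add h.alT hj₀ fun g hg =>
          .inr (.inr ⟨j, hj, single_ne hg⟩)).1, ?_, ?_⟩)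
        · rw [ws_add, ws_single, h.wtE, add_zero, b.2.1]
        · rw [od_add, od_single, b.2.2]
          simp
      obtain ⟨y', hy'', h5⟩ := ih (x - x₀ - (Dloc δ ω f A y - dC A y)) (sub_mem (by
        have a : x - x₀ ∈ mono _ ⊓ mono _ := ⟨sub_mem hx (proj_mem_of hx), sub_proj_mem x⟩
        rw [← mono_and] at a
        refine mono_le (fun μ b => ⟨b.1.1, ?_⟩) a
        have b1 := b.1.2
        have b2 : ws cd μ ≠ k := fun e => b.2 ⟨b.1.1.2, e⟩
        omega) (by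
        rw [mono_and, ← zz_eq]
        exact ⟨⟨h4, mono_le (fun _ a => a.1) h3⟩, mono_le (fun _ a => a.2) h3⟩)) (by
        have a := sub_mem hd (h.Dloc_rel A h2)
        have b := LinearMap.congr_fun (h.Dloc_sq A) y
        rw [Module.End.mul_apply, LinearMap.zero_apply] at b
        convert a using 1
        simp only [map_sub, b]
        abel)
      refine ⟨y + y', add_mem hy' hy'', ?_⟩
      convert add_mem h5 h2 using 1
      rw [map_add]
      abel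
  intro x hx hd
  simp only [zz_eq] at hx ⊢
  obtain ⟨k, hk⟩ := exists_lb (ws cd) x
  refine key (∑ g, |cd g| + 1 - k).toNat x ?_ hd
  rw [mono_and]
  exact ⟨hx, mono_le (fun μ a => by omega) hk⟩

end Pool.Agent.MP_8be872_ag.H35
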