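import Pool.Agent.MP_8be872_ag.H35.ToepA

/-! Module Toep: matrices commuting with the shift. -/

namespace Pool.Agent.MP_8be872_ag.H35

open Finset H38 H56 H63
open scoped Matrix

variable {Q : Quiv} {w v D : Fin Q.n → ℕ} {d : Bas Q v → ℕ} {lab : Bas Q D → Bas Q v × ℕ}

theorem shS_kc {p q : Nb Q w v D} : shS lab kc p q ↔ (vx p = vx q ∧ blk p < 2 ∧ blk q < 2) ∧
    (blk p < blk q ∨ ∃ a b : Bas Q v, p = .inr (.inl a) ∧ q = .inr (.inl b) ∧ (b.2 : ℕ) < a.2) := by
  simp [shS, shape, arrow, radF]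

theorem shS_ka {p q : Nb Q w v D} : shS lab ka p q ↔
    ((vx p = vx q ∧ blk p < 2 ∧ blk q < 2) ∧ blk q = 0) ∧ top lab p := by
  simp [shS, shape, arrow]

theorem kc_col {p q : Nb Q w v D} (h : shS lab kc p q) : ∃ b, q = .inr (.inl b) := by
  obtain ⟨⟨-, -, h1⟩, h2 | ⟨_, b, -, e, -⟩⟩ := shS_kc.1 h
  · rcases q with q | q | q <;> simp [blk] at h1 h2
    exact ⟨q, rfl⟩
  · exact ⟨b, e⟩

theorem top_spec (h : IsLab d lab) {p : Nb Q w v D} (h1 : top lab p) (h2 : blk p < 2) :
    ∃ a, hp lab p = some (a, d a) := by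
  rcases hp_cases lab p with ⟨a, k, h3⟩ | ⟨b, rfl⟩
  · rcases (hp_spec h h3).1.eq_or_lt with e | e
    · exact ⟨a, e ▸ h3⟩
    · obtain ⟨τ, hτ⟩ := h.surj a k e
      exact absurd (hτ ▸ h3) (top_iff.1 h1 τ)
  · simp [blk] at h2

theorem top_of (h : IsLab d lab) {p : Nb Q w v D} {a : Bas Q v} (h1 : hp lab p = some (a, d a)) :
    top lab p := top_iff.2 fun τ e => by
  have h2 := h.lt τ
  rw [← Option.some.inj (h1.symm.trans e)] at h2
  exact lt_irrefl _ h2

/-- The linearized action of the ghosts on the free rows of `α`. -/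
theorem linPhi_ka (h : IsLab d lab) (y : Kd Q → Mt Q w v D) (h0 : y ka = 0)
    (hc : ∀ p q, ¬ shS lab kc p q → y kc p q = 0) {p r : Nb Q w v D} {a : Bas Q v} {τ : Bas Q D}
    (h1 : hp lab p = some (a, d a)) (h2 : (lab τ).2 ≤ d a)
    (h3 : hp lab r = some (a, d a - (lab τ).2)) :
    linPhi lab y ka p (.inl τ) = -y kc r (.inr (.inl (lab τ).1)) := by
  have e1 : (al0 lab : Mt Q w v D).map (algebraMap ℂ ℂ) = al0 lab := by
    ext
    simp
  have e2 : YS lab y kc = ∑ i ∈ range (Fintype.card (Bas Q D) + 1),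
      (al0 lab ^ i)ᵀ * y kc * al0 lab ^ i := by
    simp only [YS, e1, h0, Matrix.transpose_pow]
    refine (if_neg (by simp)).trans ((if_pos trivial).trans (sum_congr rfl fun i _ => ?_))
    congr 2
    · funext p q
      split_ifs with h4
      · rfl
      · exact (hc p q h4).symm
    · refine add_eq_left.2 ?_
      funext p q
      simp
  obtain ⟨s, hs⟩ := hp_lab (w := w) h τ
  rw [linPhi, Matrix.sub_apply, top_mul _ _ (top_of h h1), zero_sub, mul_al0 h _ _ hs, e2,
    Matrix.sum_apply, sum_eq_single (lab τ).2 (fun i _ hi => ?_) fun hi => ?_]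
  · rw [Matrix.mul_apply, sum_congr rfl fun _ _ => mul_comm _ _,
      sum_pow h (r := .inr (.inl (lab τ).1)) hs le_rfl (by simp [hp]), Matrix.mul_apply]
    exact congrArg _ (sum_pow h h1 h2 h3 fun p' => y kc p' (.inr (.inl (lab τ).1)))
  · by_contra e
    obtain ⟨q', b, c⟩ := mul_ne e
    obtain ⟨p', -, b⟩ := mul_ne b
    obtain ⟨b', rfl⟩ := kc_col (of_not_not fun e => b (hc _ _ e))
    rw [pow_apply h i hs] at c
    obtain ⟨c1, c2⟩ := (ite_ne_right_iff.1 c).1
    have := (Prod.ext_iff.1 (Option.some.inj c2)).2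
    dsimp only at this
    omega
  · have := h.lt τ
    have := d_le h (lab τ).1
    exact absurd (mem_range.2 (by omega)) hi

theorem toep2 (h : IsLab d lab) (y : Kd Q → Mt Q w v D) (h0 : y ka = 0)
    (hc : ∀ p q, ¬ (shS lab kc p q ∧ 0 < lvk d lab kc p q) → y kc p q = 0)
    (hl : ∀ p q, shS lab ka p q → ¬ isNe d lab p q → linPhi lab y ka p q = 0) : y kc = 0 := by
  ext r q
  by_contra e
  obtain ⟨h1, h2⟩ := of_not_not fun a => e (hc r q a)
  obtain ⟨b, rfl⟩ := kc_col h1
  obtain ⟨⟨h3, h4, -⟩, h5⟩ := shS_kc.1 h1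
  rcases hp_cases lab r with ⟨a, k, hr⟩ | ⟨_, rfl⟩
  · obtain ⟨a1, a2, a3, -, a5, -⟩ := hp_spec h hr
    have h6 : d a - k < d b := by
      simp only [lvk, a2] at h2
      simp only [lv] at h2
      omega
    obtain ⟨τ, hτ⟩ := h.surj b _ h6
    obtain ⟨p, hp1⟩ := hp_ex (w := w) h (le_refl (d a))
    obtain ⟨-, -, b3, b4, -⟩ := hp_spec h hp1
    have h7 : a.1 = τ.1 := by rw [← h.vert τ, hτ, ← a3, h3]; rfl
    have h8 := linPhi_ka h y h0 (fun p q a => hc p q fun b => a b.1) (τ := τ) (r := r) hp1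
      (by rw [hτ]; exact Nat.sub_le _ _) (by rw [hτ, hr, Nat.sub_sub_self a1])
    rw [hl p (.inl τ) (shS_ka.2 ⟨⟨⟨b3.trans h7, b4, by simp [blk]⟩, rfl⟩, top_of h hp1⟩) ?_, hτ] at h8
    · exact e (neg_eq_zero.1 h8.symm)
    · rintro ⟨a', τ', c1, c2, -, c3⟩
      obtain rfl : a = a' := (Prod.ext_iff.1 (Option.some.inj (hp1.symm.trans c1))).1
      obtain rfl : τ = τ' := Sum.inl_injective c2
      rw [hτ] at c3
      dsimp only at c3
      rcases h5 with h5 | ⟨a', b', rfl, e', h5⟩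
      · have : k ≠ 0 := a5.1 (by simpa [blk] using h5)
        omega
      · obtain ⟨rfl, rfl⟩ := Prod.ext_iff.1 (Option.some.inj hr)
        obtain rfl : b = b' := Sum.inl_injective (Sum.inr_injective e')
        dsimp only at c3
        omega
  · simp [blk] at h4

theorem toep3 (h : IsLab d lab) (t : Mt Q w v D) : ∃ y : Kd Q → Mt Q w v D, y ka = 0 ∧
    (∀ p q, ¬ (shS lab kc p q ∧ 0 < lvk d lab kc p q) → y kc p q = 0) ∧
    ∀ p q, shS lab ka p q → ¬ isNe d lab p q → linPhi lab y ka p q = t p q := by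
  classical
  let c : Mt Q w v D := fun r q => if shS lab kc r q ∧ 0 < lvk d lab kc r q then
    -∑ p, ∑ τ, if top lab p ∧ q = .inr (.inl (lab τ).1) ∧ lv d lab r = (lab τ).2 ∧
      (hp lab p).map (·.1) = (hp lab r).map (·.1) then t p (.inl τ) else 0 else 0
  obtain ⟨y, e0, e1⟩ : ∃ y : Kd Q → Mt Q w v D, y ka = 0 ∧ y kc = c :=
    ⟨fun k => if k = kc then c else 0, if_neg (by simp), if_pos rfl⟩
  refine ⟨y, e0, fun p q a => by rw [e1]; exact if_neg a, fun p q h1 h2 => ?_⟩
  obtain ⟨⟨⟨h3, h4, -⟩, h5⟩, h6⟩ := shS_ka.1 h1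
  obtain ⟨τ, rfl⟩ := blk_zero h5
  obtain ⟨a, hp1⟩ := top_spec h h6 h4
  have h7 : a.1 = τ.1 := (hp_spec h hp1).2.2.1.symm.trans h3
  have h8 : ¬ (d a < (lab τ).2 ∨ (d a = (lab τ).2 ∧ (a.2 : ℕ) < (lab τ).1.2)) := fun e =>
    h2 ⟨a, τ, hp1, rfl, h7, e⟩
  obtain ⟨r, hr⟩ := hp_ex (w := w) h (Nat.sub_le (d a) (lab τ).2)
  obtain ⟨-, a2, a3, a4, a5, -⟩ := hp_spec h hr
  have h9 := h.lt τ
  have a6 : lv d lab r = (lab τ).2 := by omega
  rw [linPhi_ka h _ e0 (fun p q a => by rw [e1]; exact if_neg fun b => a b.1) hp1 (by omega) hr,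
    e1]
  simp only [c]
  rw [if_pos, neg_neg, sum_eq_single p (fun p' _ e => sum_eq_zero fun τ' _ => if_neg fun b => ?_)
    (by simp), sum_eq_single τ (fun τ' _ e => if_neg fun b => ?_) (by simp),
    if_pos ⟨h6, rfl, a6, by rw [hp1, hr]; rfl⟩]
  · refine e (h.inj (Prod.ext (Sum.inl_injective (Sum.inr_injective b.2.1)).symm ?_))
    have := b.2.2.1
    omega
  · have b1 := b.2.2.2
    rw [hr] at b1
    rcases hp_cases lab p' with ⟨a', k, h10⟩ | ⟨_, rfl⟩
    · obtain ⟨a'', h11⟩ := top_spec h b.1 (hp_spec h h10).2.2.2.1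
      rw [h11] at b1
      obtain rfl : a'' = a := Option.some.inj b1
      exact e (hp_inj h h11 hp1)
    · cases b1
  · refine ⟨shS_kc.2 ⟨⟨a3.trans (h7.trans (h.vert τ).symm), a4, by simp [blk]⟩, ?_⟩, ?_⟩
    · by_cases h10 : d a - (lab τ).2 = 0
      · refine .inr ⟨a, _, hp_inj h (h10 ▸ hr) rfl, rfl, ?_⟩
        refine lt_of_le_of_ne (by omega) fun e => ?_
        have h11 : (lab τ).1 = a := by
          have h12 := (h.vert τ).trans h7.symm
          generalize (lab τ).1 = b at e h12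
          obtain ⟨i, x⟩ := a
          obtain ⟨j, z⟩ := b
          obtain rfl : j = i := h12
          exact congrArg _ (Fin.ext e)
        rw [h11] at h9
        omega
      · left
        rw [a5.2 h10]
        simp [blk]
    · simp only [lvk, a6]
      simp only [lv]
      omega

theorem arrow_flip {o : Option (Fin Q.ne)} {s : Bool} {p q : Nb Q w v D}
    (h : arrow (.inl (o, s)) q p) : arrow (.inl (o, !s)) p q := by
  rcases o with _ | e <;> cases s <;> simp only [arrow] at h ⊢ <;> simp at h ⊢ <;> tauto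

theorem sum_tr (ξ M : Mt Q w v D) : ∑ p, ∑ q, ξ p q * M p q = (ξᵀ * M).trace := by
  rw [sum_comm]
  rfl

theorem toep4 (h : IsLab d lab) (P : Bas Q v → Pth Q w) (y : Kd Q → Mt Q w v D)
    (ha : y ka = al0 lab) (hx : ∀ ε p q, ¬ shape rad (kx ε) p q → y (kx ε) p q = 0)
    (hF : (Fmat P y).det ≠ 0) (ξ : Mt Q w v D) (hξ : ∀ p q, ¬ shape rad kz p q → ξ p q = 0)
    (hu : ∀ u : Mt Q w v D, (∀ p q, ¬ shape rad ke p q → u p q = 0) →
      ∑ p, ∑ q, ξ p q * cm0 lab u p q = 0)
    (ht : ∀ t : Arr Q → Mt Q w v D, (∀ ε p q, ¬ shape rad (kt ε) p q → t ε p q = 0) →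
      ∑ p, ∑ q, ξ p q * (∑ o, (y (kx (o, true)) * t (o, false) + t (o, true) * y (kx (o, false)) -
        y (kx (o, false)) * t (o, true) - t (o, false) * y (kx (o, true)))) p q = 0) : ξ = 0 := by
  classical
  have hξ' : ∀ p q, ξ p q ≠ 0 → (vx p = vx q ∧ blk p < 2 ∧ blk q < 2) ∧ blk q = 0 := fun p q e =>
    of_not_not fun a => e (hξ p q a)
  have hx' : ∀ ε p q, y (kx ε) p q ≠ 0 → arrow (.inl ε) p q ∧ (blk q = 0 → blk p = 0) :=
    fun ε p q e => of_not_not fun a => e (hx ε p q a)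
  have h1 : ∀ ε, ξᵀ * y (kx ε) = y (kx ε) * ξᵀ := by
    rintro ⟨o, s⟩
    ext q p
    by_cases h2 : arrow (.inl (o, s)) q p ∧ blk q = 0
    · have := ht (Pi.single (o, !s) (Matrix.single p q 1)) fun ε p' q' a => by
        by_cases e : ε = (o, !s)
        · subst e
          rw [Pi.single_eq_same, Matrix.single_apply, if_neg]
          rintro ⟨rfl, rfl⟩
          exact a ⟨arrow_flip h2.1, h2.2⟩
        · rw [Pi.single_eq_of_ne e, Matrix.zero_apply]
      rw [sum_tr, sum_eq_single o (fun o' _ e => by simp [e]) (by simp)] at this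
      cases s
      · simp only [Bool.not_false, Pi.single_eq_same, ne_eq, Prod.mk.injEq, Bool.false_eq_true,
          and_false, not_false_eq_true, Pi.single_eq_of_ne, mul_zero, zero_mul, zero_add, sub_zero,
          mul_sub, Matrix.trace_sub] at this
        rw [← mul_assoc, Matrix.trace_mul_cycle, ← mul_assoc, Matrix.trace_mul_single,
          Matrix.trace_mul_single, MulOpposite.op_one, one_smul, one_smul] at this
        exact (sub_eq_zero.1 this).symm
      · simp only [Bool.not_true, Pi.single_eq_same, ne_eq, Prod.mk.injEq, Bool.true_eq_false,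
          and_false, not_false_eq_true, Pi.single_eq_of_ne, mul_zero, zero_mul, add_zero, sub_zero,
          mul_sub, Matrix.trace_sub] at this
        rw [← mul_assoc ξᵀ (Matrix.single _ _ _), Matrix.trace_mul_cycle ξᵀ (Matrix.single _ _ _),
          ← mul_assoc, Matrix.trace_mul_single, Matrix.trace_mul_single, MulOpposite.op_one,
          one_smul, one_smul] at this
        exact sub_eq_zero.1 this
    · rw [of_not_not (a := (ξᵀ * y (kx (o, s))) q p = 0) fun e => ?_,
        of_not_not (a := (y (kx (o, s)) * ξᵀ) q p = 0) fun e => ?_]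
      · obtain ⟨r, a, b⟩ := mul_ne e
        obtain ⟨⟨b1, b2, -⟩, b3⟩ := hξ' _ _ b
        exact h2 ⟨arrow_congr rfl Iff.rfl b1.symm (by omega) (hx' _ _ _ a).1, (hx' _ _ _ a).2 b3⟩
      · obtain ⟨r, a, b⟩ := mul_ne e
        obtain ⟨⟨b1, b2, -⟩, b3⟩ := hξ' _ _ a
        exact h2 ⟨arrow_congr b1 (by omega) rfl Iff.rfl (hx' _ _ _ b).1, b3⟩
  have h2 : ∀ (b : Bas Q w) (l : List (Arr Q × Fin Q.n)), ξᵀ *ᵥ colP
      (fun j p => blk p < 2 ∧ vx p = j) (fun ε => y (kx ε)) (Pi.single (.inr (.inr b)) 1) l = 0 := by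
    intro b l
    induction l with
    | nil =>
      funext q
      rw [colP, List.foldr_nil, Matrix.mulVec_single_one]
      by_contra e
      simpa [blk] using (hξ' _ _ e).1.2.1
    | cons s l ih =>
      funext q
      have e := congrFun (congrArg (y (kx s.1) *ᵥ ·) ih) q
      simp only [Matrix.mulVec_mulVec, ← h1, Matrix.mulVec_zero] at e
      rw [← Matrix.mulVec_mulVec] at e
      generalize hz : colP (fun j p => blk p < 2 ∧ vx p = j) (fun ε => y (kx ε))
        (Pi.single (.inr (.inr b)) 1) l = z at e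
      change (ξᵀ *ᵥ fun p => @ite _ (blk p < 2 ∧ vx p = s.2) (Classical.propDecidable _)
        ((y (kx s.1) *ᵥ colP (fun j p => blk p < 2 ∧ vx p = j) (fun ε => y (kx ε))
        (Pi.single (.inr (.inr b)) 1) l) p) 0) q = 0
      rw [hz]
      by_cases h3 : vx q = s.2
      · refine Eq.trans (sum_congr rfl fun p _ => ?_) e
        by_cases h4 : ξ p q = 0
        · simp [h4]
        · have := (hξ' _ _ h4).1
          simp only [if_pos (And.intro this.2.1 (this.1.trans h3))]
      · refine sum_eq_zero fun p _ => ?_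
        by_cases h4 : ξ p q = 0
        · simp [h4]
        · have := (hξ' _ _ h4).1
          simp only [if_neg fun a : blk p < 2 ∧ vx p = s.2 => h3 (this.1.symm.trans a.2), mul_zero]
  have key : ∀ (n : ℕ) q, lv d lab q < n → ∀ p, ξ p q = 0 := by
    intro n
    induction n with
    | zero => intro q a; exact absurd (lv_nonneg h q) (by omega)
    | succ n ih =>
      intro q a
      refine congrFun (Matrix.eq_zero_of_vecMul_eq_zero hF (v := fun p => ξ p q) ?_)
      funext r
      rcases r with τ | b | b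
      · change (ξᵀ * y ka) q (.inl τ) = 0
        rw [ha]
        by_cases h3 : vx (.inl τ : Nb Q w v D) = vx q ∧ blk q = 0
        · have := hu (Matrix.single (.inl τ) q 1) fun p' q' a => by
            rw [Matrix.single_apply, if_neg]
            rintro ⟨rfl, rfl⟩
            exact a ⟨⟨h3.1, by simp [blk], by omega⟩, fun _ => rfl⟩
          rw [sum_tr, cm0, mul_sub, Matrix.trace_sub, ← mul_assoc, Matrix.trace_mul_cycle,
            ← mul_assoc, Matrix.trace_mul_single, Matrix.trace_mul_single, MulOpposite.op_one,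
            one_smul, one_smul, sub_eq_zero] at this
          rw [← this]
          by_contra e
          obtain ⟨r, b, c⟩ := mul_ne e
          have := (al0_rel h b).1.lv
          exact c (ih r (by omega) _)
        · by_contra e
          obtain ⟨r, b, c⟩ := mul_ne e
          exact h3 ⟨(al0_rel h c).1.vx.symm.trans (hξ' _ _ b).1.1, (hξ' _ _ b).2⟩
      · exact congrFun (h2 (P b).1 (P b).2) q
      · refine sum_eq_zero fun p _ => ?_
        by_cases h4 : ξ p q = 0
        · simp [h4]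
        · have := (hξ' _ _ h4).1.2.1
          have h5 : p ≠ .inr (.inr b) := by
            rintro rfl
            simp [blk] at this
          simp [Fmat, h5]
  ext p q
  exact key ((lv d lab q).toNat + 1) q (by omega) p

theorem toep : ToepStmt := by
  intro Q w v D d lab h
  refine ⟨fun k k' hk => ?_, toep2 h, toep3 h, toep4 h⟩
  obtain ⟨R, h1, h2, h3, h4⟩ : ∃ R, (∀ p q : Nb Q w v D,
      shS lab k p q ↔ arrow R p q ∧ (blk q = 0 → blk p = 0)) ∧
      (∀ p q : Nb Q w v D, shS lab k' p q ↔ arrow R p q ∧ blk q = 0) ∧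
      (∀ p q : Nb Q w v D, lvk d lab k p q = lv d lab q - lv d lab p) ∧
      ∀ p q : Nb Q w v D, lvk d lab k' p q = lv d lab q - lv d lab p + 1 := by
    rcases hk with ⟨ε, rfl, rfl⟩ | ⟨rfl, rfl⟩
    · exact ⟨.inl ε, by simp [shS, shape], by simp [shS, shape], by simp [lvk], fun _ _ => rfl⟩
    · exact ⟨.inr false, by simp [shS, shape], by simp [shS, shape], by simp [lvk], fun _ _ => rfl⟩
  simp only [h1, h2, h3, h4]
  refine ⟨fun y a b => ?_, fun t ht => ?_⟩
  · obtain ⟨c1, c2⟩ := toep1a h R y a fun p q c c' => b p q ⟨c, c'⟩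
    exact ⟨fun p q e => c1 p q (by omega), c2⟩
  · obtain ⟨y, a, b⟩ := toep1b h R t fun p q e => by
      obtain ⟨c1, c2⟩ := of_not_not fun c => e (ht p q c)
      exact ⟨c1.1, c1.2, by omega⟩
    refine ⟨y, fun p q c => of_not_not fun e => ?_, fun p q e => (a p q e).2.2.2,
      fun p q _ => by rw [b]⟩
    obtain ⟨c1, c2, c3, -⟩ := a p q e
    exact c ⟨⟨c1, fun _ => c2⟩, c3⟩

end Pool.Agent.MP_8be872_ag.H35
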