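import Pool.Agent.MP_8be872_ag.H63.SpecD

/-! The shift matrix and Toeplitz matrices. -/

namespace Pool.Agent.MP_8be872_ag.H35

open Finset H38 H56 H63
open scoped Matrix

variable {Q : Quiv} {w v D : Fin Q.n → ℕ} {d : Bas Q v → ℕ} {lab : Bas Q D → Bas Q v × ℕ}

/-- Square matrices. -/
abbrev Mt (Q : Quiv) (w v D : Fin Q.n → ℕ) := Matrix (Nb Q w v D) (Nb Q w v D) ℂ

theorem mul_ne {A B : Mt Q w v D} {p q : Nb Q w v D} (h : (A * B) p q ≠ 0) :
    ∃ r, A p r ≠ 0 ∧ B r q ≠ 0 := by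
  rw [Matrix.mul_apply] at h
  obtain ⟨r, -, hr⟩ := exists_ne_zero_of_sum_ne_zero h
  exact ⟨r, mul_ne_zero_iff.1 hr⟩

theorem hp_inj (h : IsLab d lab) {p q : Nb Q w v D} {z : Bas Q v × ℕ} (h1 : hp lab p = some z)
    (h2 : hp lab q = some z) : p = q := by
  rw [← h2] at h1
  rcases p with p | p | p <;> rcases q with q | q | q <;> simp [hp] at h1 h2 ⊢
  · exact h.inj (Prod.ext h1.1 h1.2)
  · exact h1

theorem hp_ex (h : IsLab d lab) {a : Bas Q v} {k : ℕ} (hk : k ≤ d a) :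
    ∃ p : Nb Q w v D, hp lab p = some (a, k) := by
  rcases k with _ | k
  · exact ⟨.inr (.inl a), rfl⟩
  · obtain ⟨τ, hτ⟩ := h.surj a k hk
    exact ⟨.inl τ, by simp [hp, hτ]⟩

theorem hp_lab (h : IsLab d lab) (τ : Bas Q D) : ∃ p : Nb Q w v D, hp lab p = some (lab τ) :=
  hp_ex h (h.lt τ).le

theorem hp_spec (h : IsLab d lab) {p : Nb Q w v D} {a : Bas Q v} {k : ℕ}
    (h1 : hp lab p = some (a, k)) : k ≤ d a ∧ lv d lab p = d a - k ∧ vx p = a.1 ∧ blk p < 2 ∧
      (blk p = 0 ↔ k ≠ 0) ∧ ∀ σ, xs σ d lab p = xV (σ a).1 (σ a).2 + lv d lab p • qq := by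
  rcases p with p | p | p
  · obtain ⟨rfl, rfl⟩ := Prod.ext_iff.1 (Option.some.inj h1)
    exact ⟨h.lt p, by simp [lv], (h.vert p).symm, by simp [blk], by simp [blk], fun _ => rfl⟩
  · obtain ⟨rfl, rfl⟩ := Prod.ext_iff.1 (Option.some.inj h1)
    exact ⟨Nat.zero_le _, by simp [lv], rfl, by simp [blk], by simp [blk], fun _ => rfl⟩
  · cases h1

theorem hp_cases (lab : Bas Q D → Bas Q v × ℕ) (p : Nb Q w v D) :
    (∃ a k, hp lab p = some (a, k)) ∨ ∃ b, p = .inr (.inr b) := by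
  rcases p with p | p | p
  · exact .inl ⟨_, _, rfl⟩
  · exact .inl ⟨_, _, rfl⟩
  · exact .inr ⟨_, rfl⟩

theorem hp_succ {p : Nb Q w v D} {a : Bas Q v} {k : ℕ} (h1 : hp lab p = some (a, k + 1)) :
    ∃ τ, p = .inl τ ∧ lab τ = (a, k) := by
  rcases p with p | p | p <;> simp [hp] at h1
  exact ⟨p, rfl, Prod.ext h1.1 h1.2⟩

theorem blk_zero {p : Nb Q w v D} (h : blk p = 0) : ∃ τ, p = .inl τ := by
  rcases p with p | p | p <;> simp [blk] at h
  exact ⟨p, rfl⟩

theorem blk_le (p : Nb Q w v D) : blk p ≤ 2 := by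
  rcases p with p | p | p <;> simp [blk]

theorem lv_nonneg (h : IsLab d lab) (p : Nb Q w v D) : 0 ≤ lv d lab p := by
  rcases hp_cases lab p with ⟨a, k, h1⟩ | ⟨b, rfl⟩
  · have := hp_spec h h1
    omega
  · exact le_rfl

theorem lv_pos (h : IsLab d lab) {p : Nb Q w v D} (h0 : 0 < lv d lab p) :
    ∃ τ, hp lab p = some (lab τ) := by
  rcases hp_cases lab p with ⟨a, k, h1⟩ | ⟨b, rfl⟩
  · have := hp_spec h h1
    obtain ⟨τ, hτ⟩ := h.surj a k (by omega)
    exact ⟨τ, hτ ▸ h1⟩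
  · exact absurd h0 (lt_irrefl _)

theorem d_le (h : IsLab d lab) (a : Bas Q v) : d a ≤ Fintype.card (Bas Q D) := by
  rw [← card_range (d a), ← card_univ]
  refine le_trans (card_le_card fun k hk => ?_) (card_image_le (f := fun τ => (lab τ).2))
  obtain ⟨τ, hτ⟩ := h.surj a k (mem_range.1 hk)
  exact mem_image.2 ⟨τ, mem_univ _, by rw [hτ]⟩

theorem al0_inl (p : Nb Q w v D) (τ : Bas Q D) :
    al0 lab p (.inl τ) = if hp lab p = some (lab τ) then 1 else 0 := rfl

theorem mul_al0 (h : IsLab d lab) (y : Mt Q w v D) (p : Nb Q w v D) {τ : Bas Q D} {r : Nb Q w v D}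
    (hr : hp lab r = some (lab τ)) : (y * al0 lab : Mt Q w v D) p (.inl τ) = y p r := by
  rw [Matrix.mul_apply, sum_eq_single r (fun s _ hs => by
    rw [al0_inl, if_neg fun e => hs (hp_inj h e hr), mul_zero]) (by simp), al0_inl, if_pos hr,
    mul_one]

theorem mul_al0_inr (y : Mt Q w v D) (p : Nb Q w v D) (q : Bas Q v ⊕ Bas Q w) :
    (y * al0 lab : Mt Q w v D) p (.inr q) = 0 := by
  simp [Matrix.mul_apply, al0]

theorem tr_mul (h : IsLab d lab) (y : Mt Q w v D) (q : Nb Q w v D) {τ : Bas Q D} {r : Nb Q w v D}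
    (hr : hp lab r = some (lab τ)) : ((al0 lab)ᵀ * y : Mt Q w v D) (.inl τ) q = y r q := by
  rw [← Matrix.transpose_apply ((al0 lab)ᵀ * y), Matrix.transpose_mul, Matrix.transpose_transpose,
    mul_al0 h _ _ hr, Matrix.transpose_apply]

theorem tr_mul_inr (y : Mt Q w v D) (q : Nb Q w v D) (p : Bas Q v ⊕ Bas Q w) :
    ((al0 lab)ᵀ * y : Mt Q w v D) (.inr p) q = 0 := by
  simp [Matrix.mul_apply, al0]

theorem al0_mul (h : IsLab d lab) (y : Mt Q w v D) (q : Nb Q w v D) {τ : Bas Q D} {r : Nb Q w v D}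
    (hr : hp lab r = some (lab τ)) : (al0 lab * y : Mt Q w v D) r q = y (.inl τ) q := by
  rw [Matrix.mul_apply, sum_eq_single (.inl τ) (fun s _ hs => ?_) (by simp), al0_inl, if_pos hr,
    one_mul]
  rcases s with s | s
  · rw [al0_inl, if_neg fun e => hs (by rw [h.inj (Option.some.inj (e.symm.trans hr))]), zero_mul]
  · exact zero_mul _

theorem top_mul (y : Mt Q w v D) (q : Nb Q w v D) {p : Nb Q w v D} (hp1 : top lab p) :
    (al0 lab * y : Mt Q w v D) p q = 0 := by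
  simp [Matrix.mul_apply, hp1 _]

theorem top_iff {p : Nb Q w v D} : top lab p ↔ ∀ τ, hp lab p ≠ some (lab τ) := by
  refine ⟨fun h τ e => by simpa [al0_inl, e] using h (.inl τ), fun h q => ?_⟩
  rcases q with q | q
  · rw [al0_inl, if_neg (h q)]
  · rfl

theorem pow_apply (h : IsLab d lab) (j : ℕ) {p : Nb Q w v D} {a : Bas Q v} {m : ℕ}
    (h1 : hp lab p = some (a, m)) (p' : Nb Q w v D) :
    (al0 lab ^ j : Mt Q w v D) p' p = if j ≤ m ∧ hp lab p' = some (a, m - j) then 1 else 0 := by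
  induction j generalizing p m with
  | zero =>
    rw [pow_zero, Matrix.one_apply]
    exact if_congr ⟨fun e => ⟨Nat.zero_le _, e ▸ h1⟩, fun e => hp_inj h e.2 h1⟩ rfl rfl
  | succ j ih =>
    rw [pow_succ]
    rcases m with _ | m
    · rw [hp_inj h h1 (q := .inr (.inl a)) rfl, mul_al0_inr, if_neg fun e => by omega]
    · obtain ⟨τ, rfl, hτ⟩ := hp_succ h1
      obtain ⟨r, hr⟩ := hp_lab (w := w) h τ
      rw [mul_al0 h _ _ hr, ih (hτ ▸ hr)]
      simp only [Nat.add_le_add_iff_right, Nat.add_sub_add_right]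

theorem sum_pow (h : IsLab d lab) {j : ℕ} {p r : Nb Q w v D} {a : Bas Q v} {m : ℕ}
    (h1 : hp lab p = some (a, m)) (hj : j ≤ m) (hr : hp lab r = some (a, m - j))
    (f : Nb Q w v D → ℂ) : ∑ p', (al0 lab ^ j : Mt Q w v D) p' p * f p' = f r := by
  rw [sum_eq_single r (fun s _ hs => by
    rw [pow_apply h j h1, if_neg fun e => hs (hp_inj h e.2 hr), zero_mul]) (by simp),
    pow_apply h j h1, if_pos ⟨hj, hr⟩, one_mul]

theorem pow_nil (h : IsLab d lab) : (al0 lab ^ (Fintype.card (Bas Q D) + 1) : Mt Q w v D) = 0 := by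
  ext p' p
  rcases hp_cases lab p with ⟨a, k, h1⟩ | ⟨b, rfl⟩
  · have := (hp_spec h h1).1
    have := d_le h a
    rw [pow_apply h _ h1, if_neg fun e => by omega, Matrix.zero_apply]
  · rw [pow_succ, mul_al0_inr, Matrix.zero_apply]

variable (d lab) in
/-- `p` lies `i` steps below `q`. -/
structure Below (i : ℕ) (p q : Nb Q w v D) : Prop where
  lv : lv d lab p = lv d lab q + i
  xs : ∀ σ, xs σ d lab p = xs σ d lab q + (i : ℤ) • qq
  vx : vx p = vx q
  two : blk p = 2 ↔ blk q = 2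
  zero : blk p = 0 → blk q = 0

theorem pow_rel (h : IsLab d lab) {j : ℕ} {p q : Nb Q w v D}
    (h0 : (al0 lab ^ j : Mt Q w v D) p q ≠ 0) : Below d lab j p q := by
  rcases hp_cases lab q with ⟨a, k, h1⟩ | ⟨b, rfl⟩
  · rw [pow_apply h j h1] at h0
    obtain ⟨h2, h3⟩ := (ite_ne_right_iff.1 h0).1
    obtain ⟨a1, a2, a3, a4, a5, a6⟩ := hp_spec h h1
    obtain ⟨b1, b2, b3, b4, b5, b6⟩ := hp_spec h h3
    have e : lv d lab p = lv d lab q + j := by omega
    exact ⟨e, fun σ => by rw [a6, b6, e, add_smul, add_assoc], b3.trans a3.symm, by omega,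
      by omega⟩
  · rcases j with _ | j
    · rw [pow_zero, Matrix.one_apply] at h0
      rw [(ite_ne_right_iff.1 h0).1]
      exact ⟨by simp, by simp, rfl, Iff.rfl, id⟩
    · rw [pow_succ, mul_al0_inr] at h0
      exact absurd rfl h0

theorem al0_rel (h : IsLab d lab) {p q : Nb Q w v D} (h0 : al0 lab p q ≠ 0) :
    Below d lab 1 p q ∧ blk q = 0 := by
  refine ⟨pow_rel h (by rwa [pow_one]), ?_⟩
  rcases q with q | q
  · rfl
  · exact absurd rfl h0

theorem arrow_congr {R : Arr Q ⊕ Bool} {p p' q q' : Nb Q w v D} (h1 : vx p = vx p')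
    (h2 : blk p = 2 ↔ blk p' = 2) (h3 : vx q = vx q') (h4 : blk q = 2 ↔ blk q' = 2)
    (h : arrow R p q) : arrow R p' q' := by
  have := blk_le p
  have := blk_le p'
  have := blk_le q
  have := blk_le q'
  rcases R with ⟨_ | e, s⟩ | s
  · cases s <;> simp only [arrow, ← h1, ← h3] at h ⊢ <;> simp at h ⊢ <;> exact ⟨h.1, by omega⟩
  · simp only [arrow, ← h1, ← h3] at h ⊢
    exact ⟨by omega, by omega, h.2.2⟩
  · simp only [arrow, ← h1, ← h3] at h ⊢
    exact ⟨h.1, by omega⟩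

/-- Matrices commuting with the shift on `T` are Toeplitz. -/
theorem toep1a (h : IsLab d lab) (R : Arr Q ⊕ Bool) (y : Mt Q w v D)
    (hy : ∀ p q, ¬ (arrow R p q ∧ (blk q = 0 → blk p = 0)) → y p q = 0)
    (hc : ∀ p q, arrow R p q → blk q = 0 → cm0 lab y p q = 0) :
    (∀ p q, lv d lab p < lv d lab q → y p q = 0) ∧ ∀ p τ, y p (.inl τ) =
      ∑ p', (al0 lab ^ ((lab τ).2 + 1) : Mt Q w v D) p' p * y p' (.inr (.inl (lab τ).1)) := by
  have hy' : ∀ p q, y p q ≠ 0 → arrow R p q ∧ (blk q = 0 → blk p = 0) := fun p q e =>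
    of_not_not fun a => e (hy p q a)
  have h1 : ∀ p τ, (y * al0 lab : Mt Q w v D) p (.inl τ) = (al0 lab * y : Mt Q w v D) p (.inl τ) := by
    intro p τ
    by_cases h2 : arrow R p (.inl τ)
    · exact sub_eq_zero.1 (hc p _ h2 rfl)
    · rw [of_not_not (a := (y * al0 lab : Mt Q w v D) p (.inl τ) = 0) fun e => ?_,
        of_not_not (a := (al0 lab * y : Mt Q w v D) p (.inl τ) = 0) fun e => ?_]
      · obtain ⟨r, a, b⟩ := mul_ne e
        have := (al0_rel h a).1
        exact h2 (arrow_congr this.vx.symm this.two.symm rfl Iff.rfl (hy' _ _ b).1)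
      · obtain ⟨r, a, b⟩ := mul_ne e
        have := (al0_rel h b).1
        exact h2 (arrow_congr rfl Iff.rfl this.vx this.two (hy' _ _ a).1)
  constructor
  · have key : ∀ (n : ℕ) p q, lv d lab p < n → lv d lab p < lv d lab q → y p q = 0 := by
      intro n
      induction n with
      | zero => intro p q a _; exact absurd (lv_nonneg h p) (by omega)
      | succ n ih =>
        intro p q a b
        have := lv_nonneg h p
        obtain ⟨τ, hτ⟩ := lv_pos h (p := q) (by omega)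
        rw [← mul_al0 h y p hτ, h1]
        by_contra e
        obtain ⟨r, c, c'⟩ := mul_ne e
        have c1 := (al0_rel h c).1.lv
        have c2 := (al0_rel h (p := q) (q := .inl τ) (by simp [al0_inl, hτ])).1.lv
        exact c' (ih _ _ (by omega) (by omega))
    exact fun p q => key ((lv d lab p).toNat + 1) p q (by omega)
  · have key : ∀ (j : ℕ) b q, hp lab q = some (b, j) → ∀ p,
        y p q = (((al0 lab ^ j)ᵀ * y : Mt Q w v D)) p (.inr (.inl b)) := by
      intro j b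
      induction j with
      | zero =>
        intro q hq p
        rw [hp_inj h hq (q := .inr (.inl b)) rfl, pow_zero, Matrix.transpose_one, one_mul]
      | succ j ih =>
        intro q hq p
        obtain ⟨τ, rfl, hτ⟩ := hp_succ hq
        obtain ⟨r, hr⟩ := hp_lab (w := w) h τ
        rw [pow_succ, Matrix.transpose_mul, mul_assoc]
        rcases p with p | p
        · obtain ⟨s, hs⟩ := hp_lab (w := w) h p
          rw [tr_mul h _ _ hs, ← ih r (hτ ▸ hr), ← mul_al0 h y s hr, h1, al0_mul h _ _ hs]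
        · rw [tr_mul_inr]
          refine hy _ _ fun a => ?_
          obtain ⟨_, e⟩ := blk_zero (a.2 rfl)
          cases e
    exact fun p τ => key _ _ (.inl τ) rfl p

/-- Solving the commutator equation in nonpositive level. -/
theorem toep1b (h : IsLab d lab) (R : Arr Q ⊕ Bool) (t : Mt Q w v D)
    (ht : ∀ p q, t p q ≠ 0 → arrow R p q ∧ blk q = 0 ∧ lv d lab q < lv d lab p) :
    ∃ y : Mt Q w v D, (∀ p q, y p q ≠ 0 → arrow R p q ∧ blk p = 0 ∧ blk q = 0 ∧
      ∃ p' q', t p' q' ≠ 0 ∧ lv d lab q - lv d lab p = lv d lab q' - lv d lab p' + 1 ∧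
        ∀ σ, xs σ d lab q - xs σ d lab p = xs σ d lab q' - xs σ d lab p' + qq) ∧
      cm0 lab y = t := by
  let s : ℕ → Mt Q w v D := fun i => (al0 lab ^ i)ᵀ * t * al0 lab ^ i
  have hs : ∀ i p q, s i p q ≠ 0 → ∃ p' q', t p' q' ≠ 0 ∧ Below d lab i p' p ∧ Below d lab i q' q := by
    intro i p q e
    obtain ⟨q', a, b⟩ := mul_ne e
    obtain ⟨p', a, c⟩ := mul_ne a
    exact ⟨p', q', c, pow_rel h a, pow_rel h b⟩
  have h1 : ∀ i, al0 lab * ((al0 lab)ᵀ * s i) = s i := by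
    intro i
    ext p q
    by_cases h2 : top lab p
    · rw [top_mul _ _ h2]
      by_contra e
      obtain ⟨p', q', a, b, c⟩ := hs i p q (Ne.symm e)
      have := (ht _ _ a).2.2
      have := b.lv
      have := c.lv
      have := lv_nonneg h q
      obtain ⟨τ, hτ⟩ := lv_pos h (p := p) (by omega)
      exact top_iff.1 h2 τ hτ
    · obtain ⟨τ, hτ⟩ := not_forall.1 (mt top_iff.2 h2)
      rw [al0_mul h _ _ (of_not_not hτ), tr_mul h _ _ (of_not_not hτ)]
  have h2 : ∀ i, (al0 lab)ᵀ * s i * al0 lab = s (i + 1) := fun i => by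
    simp only [s, pow_succ, Matrix.transpose_mul, mul_assoc]
  refine ⟨-∑ i ∈ range (Fintype.card (Bas Q D) + 1), (al0 lab)ᵀ * s i, fun p q e => ?_, ?_⟩
  · rw [Matrix.neg_apply, neg_ne_zero, Matrix.sum_apply] at e
    obtain ⟨i, -, e⟩ := exists_ne_zero_of_sum_ne_zero e
    obtain ⟨r, a, b⟩ := mul_ne e
    obtain ⟨a1, a2⟩ := al0_rel h a
    obtain ⟨p', q', c, c1, c2⟩ := hs i r q b
    obtain ⟨t1, t2, t3⟩ := ht _ _ c
    refine ⟨arrow_congr (c1.vx.trans a1.vx) (c1.two.trans a1.two) c2.vx c2.two t1, a2, c2.zero t2,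
      p', q', c, ?_, fun σ => ?_⟩
    · have := a1.lv
      have := c1.lv
      have := c2.lv
      omega
    · rw [c1.xs, c2.xs, a1.xs, Nat.cast_one, one_smul]
      abel
  · rw [cm0, neg_mul, mul_neg, sub_neg_eq_add, neg_add_eq_sub, sum_mul, mul_sum, ← sum_sub_distrib,
      sum_congr rfl fun i _ => by rw [h1, h2], sum_range_sub']
    simp only [s, pow_nil h, mul_zero, sub_zero, pow_zero, Matrix.transpose_one, one_mul, mul_one]

end Pool.Agent.MP_8be872_ag.H35
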